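import Pool.Agent.R883.MR.Base

/-! Piece MR-B1 (MP_e79d62_co): from a zero of `H` to a degenerate quadratic form. -/

set_option autoImplicit false

open Finset

namespace Pool.Agent.R883.MR

open Pool.Agent.R793.MR

section poly
variable {K : Type} [Field K] [CharP K 2]

theorem alg1 (l0 l1 l2 l3 c0 c1 c2 c3 : K) (h01 : c0 + c1 ≠ 0) (h23 : c2 + c3 ≠ 0)
    (H : c0 * c2 + l0 * ((c0 + c1) * (c1 + c2)) + l2 * ((c2 + c3) * (c3 + c0)) = 0)
    (H' : c1 * c3 + l1 * ((c1 + c2) * (c2 + c3)) + l3 * ((c3 + c0) * (c0 + c1)) = 0) :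
    (c1 + l2 * (c3 + c0) + l1 * (c1 + c2)) / (c0 + c1) =
      (c3 + l0 * (c1 + c2) + l3 * (c3 + c0)) / (c2 + c3) + 1 := by
  rw [div_add_one h23, div_eq_div_iff h01 h23]
  grind

theorem algQ (l0 l1 l2 l3 x y c0 c1 c2 c3 : K)
    (hx : x * (c2 + c3) = c3 + l0 * (c1 + c2) + l3 * (c3 + c0))
    (hy : y * (c3 + c0) = c0 + l1 * (c2 + c3) + l0 * (c0 + c1))
    (H : c0 * c2 + l0 * ((c0 + c1) * (c1 + c2)) + l2 * ((c2 + c3) * (c3 + c0)) = 0) :
    qq l0 l1 l2 l3 x y c0 c1 c2 c3 0 = 0 := by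
  unfold qq
  grind

theorem alg2 (l0 l1 l2 l3 x y c0 c1 c2 c3 e0 e1 e2 e3 : K)
    (hc0 : w0 l0 l3 x c0 c1 c2 c3 0 = 0) (hc1 : w1 l0 l1 y c0 c1 c2 c3 0 = 0)
    (hc2 : w2 l1 l2 x c0 c1 c2 c3 0 = 0) (hc3 : w3 l2 l3 y c0 c1 c2 c3 = 0)
    (he0 : w0 l0 l3 x e0 e1 e2 e3 0 = 0) (he1 : w1 l0 l1 y e0 e1 e2 e3 0 = 0)
    (he2 : w2 l1 l2 x e0 e1 e2 e3 0 = 0) (he3 : w3 l2 l3 y e0 e1 e2 e3 = 0)
    (hP : x + y + 1 + l1 + l3 ≠ 0) (hZ : x * y + l0 * l2 + l1 * l3 + l1 ≠ 0) :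
    c0 * e1 + c1 * e0 = 0 := by
  unfold w0 at hc0 he0
  unfold w1 at hc1 he1
  unfold w2 at hc2 he2
  unfold w3 at hc3 he3
  have E1c : (y + 1 + l3 + l0) * c0 + (x + l0 + l1) * c2 + (x + y + 1 + l1 + l3) * c3 = 0 := by
    grind
  have E1e : (y + 1 + l3 + l0) * e0 + (x + l0 + l1) * e2 + (x + y + 1 + l1 + l3) * e3 = 0 := by
    grind
  have E2c : (x + 1 + l2 + l3) * c0 + (y + l1 + l2) * c2 + (x + y + 1 + l1 + l3) * c1 = 0 := by
    grind
  have E2e : (x + 1 + l2 + l3) * e0 + (y + l1 + l2) * e2 + (x + y + 1 + l1 + l3) * e1 = 0 := by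
    grind
  have A : (x + y + 1 + l1 + l3) * (c0 * e1 + c1 * e0) = (y + l1 + l2) * (c0 * e2 + c2 * e0) := by
    grind
  have B : (x + y + 1 + l1 + l3) * (c0 * e3 + c3 * e0) = (x + l0 + l1) * (c0 * e2 + c2 * e0) := by
    grind
  have C : l0 * (c0 * e1 + c1 * e0) + (l0 + x) * (c0 * e2 + c2 * e0) +
      (x + l3 + 1) * (c0 * e3 + c3 * e0) = 0 := by
    grind
  have D : (c0 * e2 + c2 * e0) * (x * y + l0 * l2 + l1 * l3 + l1) = 0 := by
    have h1 : (x + y + 1 + l1 + l3) * (l0 * (c0 * e1 + c1 * e0) +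
        (l0 + x) * (c0 * e2 + c2 * e0) + (x + l3 + 1) * (c0 * e3 + c3 * e0)) = 0 := by
      rw [C, mul_zero]
    have h2 : (x + y + 1 + l1 + l3) * (l0 * (c0 * e1 + c1 * e0) +
        (l0 + x) * (c0 * e2 + c2 * e0) + (x + l3 + 1) * (c0 * e3 + c3 * e0)) =
        l0 * ((y + l1 + l2) * (c0 * e2 + c2 * e0)) +
        (x + y + 1 + l1 + l3) * ((l0 + x) * (c0 * e2 + c2 * e0)) +
        (x + l3 + 1) * ((x + l0 + l1) * (c0 * e2 + c2 * e0)) := by
      rw [← A, ← B]
      ring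
    rw [h2] at h1
    generalize c0 * e2 + c2 * e0 = D at h1
    grind
  have D02 : c0 * e2 + c2 * e0 = 0 := by
    rcases mul_eq_zero.mp D with h | h
    · exact h
    · exact absurd h hZ
  rw [D02, mul_zero] at A
  rcases mul_eq_zero.mp A with h | h
  · exact absurd h hP
  · exact h

end poly

theorem b1 (hI : StmInd) : StmB1 := by
  intro K _ _ _ _ σ χ hS lam hlam htr c hc4 hc0 hH
  obtain ⟨hind, -, -, -, -, -⟩ := hI K σ hS.h8 hS.h4
  -- the element `c`
  have hm0 : c + σ c ≠ 0 := by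
    intro h
    have h1 : σ c = c := by grind
    apply hc0
    have h2 : HH σ lam c = c * c := by
      unfold HH
      simp only [h1]
      grind
    rw [h2] at hH
    exact mul_self_eq_zero.mp hH
  have hm2 : σ (σ c) + σ (σ (σ c)) ≠ 0 := by
    intro h
    apply hm0
    apply σ.injective
    apply σ.injective
    rw [map_add, map_add, map_zero, map_zero, h]
  have hm3 : σ (σ (σ c)) + c ≠ 0 := by
    intro h
    apply hm2
    apply σ.injective
    rw [map_add, map_zero, hc4]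
    exact h
  have hH0 : c * σ (σ c) + lam * ((c + σ c) * (σ c + σ (σ c))) +
      σ (σ lam) * ((σ (σ c) + σ (σ (σ c))) * (σ (σ (σ c)) + c)) = 0 := by
    have := hH
    unfold HH at this
    rw [hc4] at this
    exact this
  have hH1 : σ c * σ (σ (σ c)) + σ lam * ((σ c + σ (σ c)) * (σ (σ c) + σ (σ (σ c)))) +
      σ (σ (σ lam)) * ((σ (σ (σ c)) + c) * (c + σ c)) = 0 := by
    have := congrArg σ hH0
    simp only [map_add, map_mul, map_zero, hc4] at this
    exact this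
  set x : K := (σ (σ (σ c)) + lam * (σ c + σ (σ c)) + σ (σ (σ lam)) * (σ (σ (σ c)) + c)) /
    (σ (σ c) + σ (σ (σ c))) with hxdef
  have hy : σ x = (c + σ lam * (σ (σ c) + σ (σ (σ c))) + lam * (c + σ c)) /
      (σ (σ (σ c)) + c) := by
    rw [hxdef]
    simp only [map_div₀, map_add, map_mul, hc4, hlam]
  have hz : σ (σ x) = (σ c + σ (σ lam) * (σ (σ (σ c)) + c) + σ lam * (σ c + σ (σ c))) /
      (c + σ c) := by
    rw [hy]
    simp only [map_div₀, map_add, map_mul, hc4]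
  have hxx : σ (σ x) = x + 1 := by
    rw [hz, hxdef]
    exact alg1 _ _ _ _ _ _ _ _ hm0 hm2 hH0 hH1
  have hX : x ∈ XX σ := mem_XX.mpr hxx
  have ex : x * (σ (σ c) + σ (σ (σ c))) =
      σ (σ (σ c)) + lam * (σ c + σ (σ c)) + σ (σ (σ lam)) * (σ (σ (σ c)) + c) := by
    rw [hxdef, div_mul_cancel₀ _ hm2]
  have ey : σ x * (σ (σ (σ c)) + c) =
      c + σ lam * (σ (σ c) + σ (σ (σ c))) + lam * (c + σ c) := by
    rw [hy, div_mul_cancel₀ _ hm3]
  have ez : (x + 1) * (c + σ c) =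
      σ c + σ (σ lam) * (σ (σ (σ c)) + c) + σ lam * (σ c + σ (σ c)) := by
    rw [← hxx, hz, div_mul_cancel₀ _ hm0]
  have et : (σ x + 1) * (σ c + σ (σ c)) =
      σ (σ c) + σ (σ (σ lam)) * (c + σ c) + σ (σ lam) * (σ (σ c) + σ (σ (σ c))) := by
    have := congrArg σ ez
    simp only [map_add, map_mul, map_one, hc4] at this
    exact this
  have htc : tt σ c = 0 := by
    unfold tt
    rw [hc4]
    grind
  have hcV : c ∈ VV σ := by rw [mem_VV, htc, map_zero]
  have hQc : QQ σ lam x c = 0 := by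
    rw [QQ_eq, htc]
    exact algQ _ _ _ _ _ _ _ _ _ _ ex ey hH0
  have hw0 : w0 lam (σ (σ (σ lam))) x c (σ c) (σ (σ c)) (σ (σ (σ c))) 0 = 0 := by
    unfold w0
    grind
  have hw1 : w1 lam (σ lam) (σ x) c (σ c) (σ (σ c)) (σ (σ (σ c))) 0 = 0 := by
    unfold w1
    grind
  have hw2 : w2 (σ lam) (σ (σ lam)) x c (σ c) (σ (σ c)) (σ (σ (σ c))) 0 = 0 := by
    unfold w2
    grind
  have hw3 : w3 (σ (σ lam)) (σ (σ (σ lam))) (σ x) c (σ c) (σ (σ c)) (σ (σ (σ c))) = 0 := by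
    unfold w3
    grind
  -- nonvanishing of `G`, `P`, `Z`
  have htr' : x + lam + σ lam + (x + 1 + σ (σ lam) + σ (σ (σ lam))) ≠ 0 := by
    intro h
    apply htr
    unfold tr4
    grind
  have hG : x + lam + σ lam ≠ 0 := by
    intro h
    have h1 := congrArg σ h
    have h2 := congrArg σ h1
    simp only [map_add, map_zero, hxx] at h2
    apply htr'
    rw [h, h2, add_zero]
  have hP : x + σ x + 1 + σ lam + σ (σ (σ lam)) ≠ 0 := by
    intro h
    have h0 : x + lam + σ lam = σ x + 1 + σ (σ (σ lam)) + lam := by grind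
    have h1 := congrArg σ h0
    simp only [map_add, map_one, hxx, hlam] at h1
    have h2 : σ x + σ lam + σ (σ lam) = x + lam + σ lam := by
      rw [h1]
      grind
    have h3 := congrArg σ h2
    simp only [map_add, hxx] at h3
    apply htr'
    rw [h3, ← h2]
    have := congrArg (fun z => z + (σ x + σ lam + σ (σ lam))) h2
    grind
  have hZ : x * σ x + lam * σ (σ lam) + σ lam * σ (σ (σ lam)) + σ lam ≠ 0 := by
    intro h
    have h1 := congrArg σ h
    simp only [map_add, map_mul, map_zero, hxx, hlam] at h1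
    have h2 : σ (x + lam + σ lam) = 0 := by
      simp only [map_add]
      grind
    apply hG
    apply σ.injective
    rw [h2, map_zero]
  -- the radical
  have hrad : ∀ e ∈ VV σ, (∀ d ∈ VV σ, BB σ lam x d e = 0) → QQ σ lam x e = 0 := by
    intro e he hre
    have h1V : (1 : K) ∈ VV σ := VV_fix (map_one σ)
    have hte : tt σ e = 0 := by
      have h := hre 1 h1V
      rw [BB_eq, fix_tt (map_one σ)] at h
      simp only [map_one] at h
      grind
    have hk := hind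
      (w0 lam (σ (σ (σ lam))) x e (σ e) (σ (σ e)) (σ (σ (σ e))) 0)
      (w1 lam (σ lam) (σ x) e (σ e) (σ (σ e)) (σ (σ (σ e))) 0)
      (w2 (σ lam) (σ (σ lam)) x e (σ e) (σ (σ e)) (σ (σ (σ e))) 0)
      (w3 (σ (σ lam)) (σ (σ (σ lam))) (σ x) e (σ e) (σ (σ e)) (σ (σ (σ e)))) 0 (by
        intro d hd
        have h := hre d hd
        rw [BB_eq, hte, ← s4 d] at h
        linear_combination h)
    obtain ⟨k0, k1, k2, k3, -⟩ := hk
    have hD := alg2 _ _ _ _ _ _ _ _ _ _ _ _ _ _ hw0 hw1 hw2 hw3 k0 k1 k2 k3 hP hZ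
    have hσc0 : σ c ≠ 0 := by
      intro h
      apply hc0
      apply σ.injective
      rw [h, map_zero]
    have hf : σ (e / c) = e / c := by
      rw [map_div₀, div_eq_div_iff hσc0 hc0]
      grind
    have he' : e = (e / c) * c := by field_simp
    rw [he', QQ_smul hf, hQc, mul_zero]
  refine ⟨x, hX, ?_⟩
  -- the character sum
  have hadd : ∀ d ∈ VV σ, ∀ e ∈ VV σ, χ (QQ σ lam x d) * χ (QQ σ lam x (d + e)) =
      χ (QQ σ lam x e) * χ (BB σ lam x d e) := by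
    intro d hd e he
    rw [← hS.add _ _ (sigma_QQ hlam hX hd) (sigma_QQ hlam hX (VV_add hd he)),
      ← hS.add _ _ (sigma_QQ hlam hX he) (sigma_BB hlam hX hd he)]
    congr 1
    unfold BB
    grind
  have hinner : ∀ e ∈ VV σ, 0 ≤ χ (QQ σ lam x e) * ∑ d ∈ VV σ, χ (BB σ lam x d e) := by
    intro e he
    by_cases hre : ∀ d ∈ VV σ, BB σ lam x d e = 0
    · rw [hrad e he hre, chi_zero hS, one_mul]
      refine Finset.sum_nonneg (fun d hd => ?_)
      rw [hre d hd, chi_zero hS]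
      norm_num
    · push Not at hre
      obtain ⟨d0, hd0, hb⟩ := hre
      obtain ⟨f, hf, hχf⟩ := hS.neg
      have hbF := sigma_BB hlam hX hd0 he
      have hg : σ (f / BB σ lam x d0 e) = f / BB σ lam x d0 e := by
        rw [map_div₀, hf, hbF]
      have hzV : f / BB σ lam x d0 e * d0 ∈ VV σ := VV_smul hg hd0
      have : ∑ d ∈ VV σ, χ (BB σ lam x d e) = 0 := by
        refine sum_neg _ (f / BB σ lam x d0 e * d0) _ (fun d hd => VV_add hd hzV) ?_
        intro d hd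
        rw [BB_add, BB_smul hg, div_mul_cancel₀ _ hb,
          hS.add _ _ (sigma_BB hlam hX hd he) hf, hχf]
        ring
      rw [this, mul_zero]
  have h0V : (0 : K) ∈ VV σ := VV_fix (map_zero σ)
  have hB0 : ∀ d, BB σ lam x d 0 = 0 := by
    intro d
    unfold BB
    rw [add_zero, QQ_fix (map_zero σ)]
    grind
  have hzero : 0 < χ (QQ σ lam x 0) * ∑ d ∈ VV σ, χ (BB σ lam x d 0) := by
    rw [QQ_fix (map_zero σ)]
    have : (0 : K) ^ 2 = 0 := by ring
    rw [this, chi_zero hS, one_mul]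
    simp only [hB0, chi_zero hS]
    rw [Finset.sum_const, nsmul_eq_mul, mul_one]
    exact_mod_cast Finset.card_pos.mpr ⟨0, h0V⟩
  have hsq : (∑ d ∈ VV σ, χ (QQ σ lam x d)) * (∑ d ∈ VV σ, χ (QQ σ lam x d)) =
      ∑ e ∈ VV σ, χ (QQ σ lam x e) * ∑ d ∈ VV σ, χ (BB σ lam x d e) := by
    rw [Finset.sum_mul]
    have h1 : ∀ d ∈ VV σ, χ (QQ σ lam x d) * ∑ e ∈ VV σ, χ (QQ σ lam x e) =
        ∑ e ∈ VV σ, χ (QQ σ lam x e) * χ (BB σ lam x d e) := by
      intro d hd
      rw [← sum_shift (VV σ) d (fun e => χ (QQ σ lam x e)) (fun e he => VV_add he hd),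
        Finset.mul_sum]
      refine Finset.sum_congr rfl (fun e he => ?_)
      rw [add_comm e d]
      exact hadd d hd e he
    rw [Finset.sum_congr rfl h1, Finset.sum_comm]
    refine Finset.sum_congr rfl (fun e _ => ?_)
    rw [Finset.mul_sum]
  intro hsum
  rw [hsum, mul_zero] at hsq
  have hle := Finset.single_le_sum hinner h0V
  rw [← hsq] at hle
  exact absurd hzero (not_lt.mpr hle)

end Pool.Agent.R883.MR
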