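import Pool.Agent.R883.MR.Base

/-! Piece MR-B3 (MP_e79d62_co): the sum over all `x`. -/

set_option autoImplicit false

open Finset

namespace Pool.Agent.R883.MR

open Pool.Agent.R793.MR

theorem b3 (hI : StmInd) : StmB3 := by
  intro K _ _ _ _ σ χ hS lam hlam
  obtain ⟨-, -, -, -, ⟨w, ζ, -, hζ⟩, -⟩ := hI K σ hS.h8 hS.h4
  obtain ⟨f, hf, hχf⟩ := hS.neg
  rw [Finset.sum_comm, ← Finset.sum_filter_add_sum_filter_not (VV σ) (fun d => σ d = d)]
  have h1 : ∑ d ∈ (VV σ).filter (fun d => σ d = d), ∑ x ∈ XX σ, χ (QQ σ lam x d) = 0 := by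
    refine sum_neg _ f _ ?_ ?_
    · intro d hd
      rw [Finset.mem_filter] at hd ⊢
      have h : σ (d + f) = d + f := by rw [map_add, hd.2, hf]
      exact ⟨VV_fix h, h⟩
    · intro d hd
      rw [Finset.mem_filter] at hd
      have h : σ (d + f) = d + f := by rw [map_add, hd.2, hf]
      rw [← Finset.sum_neg_distrib]
      refine Finset.sum_congr rfl (fun x _ => ?_)
      rw [QQ_fix h, QQ_fix hd.2, hS.sq _ h, hS.sq _ hd.2, hS.add _ _ hd.2 hf, hχf]
      ring
  have h2 : ∑ d ∈ (VV σ).filter (fun d => ¬ σ d = d), ∑ x ∈ XX σ, χ (QQ σ lam x d) = 0 := by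
    refine Finset.sum_eq_zero (fun d hd => ?_)
    rw [Finset.mem_filter] at hd
    obtain ⟨hdV, hdne⟩ := hd
    have ht := mem_VV.mp hdV
    have h4 := s4 (σ := σ) d
    have hm0 : d + σ d ≠ 0 := by
      intro h
      apply hdne
      grind
    have hm2 : σ (σ d) + σ (σ (σ d)) ≠ 0 := by
      intro h
      apply hm0
      apply σ.injective
      apply σ.injective
      rw [map_add, map_add, map_zero, map_zero, h]
    have hσζ : σ (σ ζ) = ζ := by
      rw [hζ, map_add, hζ, map_one]
      grind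
    set n : K := (d + σ d) * (σ (σ d) + σ (σ (σ d))) with hn
    have hn0 : n ≠ 0 := mul_ne_zero hm0 hm2
    have hσn : σ n = (σ d + σ (σ d)) * (σ (σ (σ d)) + (d + tt σ d)) := by
      rw [hn]
      simp only [map_add, map_mul, h4]
    have hσσn : σ (σ n) = n := by
      rw [hσn, hn]
      simp only [map_add, map_mul, h4, ht]
      grind
    refine sum_neg _ (f * ζ / n) _ ?_ ?_
    · intro x hx
      rw [mem_XX] at hx ⊢
      rw [map_add, map_add, hx, map_div₀, map_div₀, map_mul, map_mul, hf, hf, hσζ, hσσn]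
      ring
    · intro x hx
      have hQ : QQ σ lam (x + f * ζ / n) d = QQ σ lam x d + f := by
        have e1 : QQ σ lam (x + f * ζ / n) d = QQ σ lam x d + (f * ζ / n) * n +
            σ (f * ζ / n) * σ n := by
          rw [QQ_eq, QQ_eq, map_add, hσn, hn]
          unfold qq
          ring
        have e2 : (f * ζ / n) * n = f * ζ := by field_simp
        rw [e1, ← map_mul, e2, map_mul, hf, hζ]
        grind
      rw [hQ, hS.add _ _ (sigma_QQ hlam hx hdV) hf, hχf]
      ring
  rw [h1, h2, add_zero]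

end Pool.Agent.R883.MR
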