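import Pool.Agent.R793.MR.Stm

/-! Project MR (MP_e79d62_co): common lemmas for the pieces MR-B1 and MR-B3. -/

set_option autoImplicit false

open Finset

namespace Pool.Agent.R883.MR

open Pool.Agent.R793.MR

section poly
variable {K : Type} [Field K]

/-- the quadratic form as a polynomial -/
def qq (l0 l1 l2 l3 x y a0 a1 a2 a3 t : K) : K :=
  l0*((a0+a1)*(a1+a2)) + l1*((a1+a2)*(a2+a3)) + l2*((a2+a3)*(a3+(a0+t))) +
  (l3+1)*((a0+a1)*(a3+(a0+t))) + x*((a0+a1)*(a2+a3)) + y*((a1+a2)*(a3+(a0+t))) + a0*(a0+t)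

def w0 (l0 l3 x b0 b1 b2 b3 t : K) : K :=
  l0*(b1+b2) + x*(b2+b3) + (l3+1)*(b3+(b0+t)) + b0
def w1 (l0 l1 y b0 b1 b2 b3 t : K) : K :=
  l0*(b0+b1) + l1*(b2+b3) + y*(b3+(b0+t)) + b0
def w2 (l1 l2 x b0 b1 b2 b3 t : K) : K :=
  x*(b0+b1) + l1*(b1+b2) + l2*(b3+(b0+t)) + b0
def w3 (l2 l3 y b0 b1 b2 b3 : K) : K :=
  (l3+1)*(b0+b1) + y*(b1+b2) + l2*(b2+b3) + b0

variable [CharP K 2]

theorem qq_shift (l0 l1 l2 l3 x y a0 a1 a2 a3 t : K) :
    qq l1 l2 l3 l0 y (x+1) a1 a2 a3 (a0+t) t = qq l0 l1 l2 l3 x y a0 a1 a2 a3 t := by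
  unfold qq
  grind

theorem qq_polar (l0 l1 l2 l3 x y a0 a1 a2 a3 t b0 b1 b2 b3 u : K) :
    qq l0 l1 l2 l3 x y (a0+b0) (a1+b1) (a2+b2) (a3+b3) (t+u) + qq l0 l1 l2 l3 x y a0 a1 a2 a3 t
      + qq l0 l1 l2 l3 x y b0 b1 b2 b3 u =
    w0 l0 l3 x b0 b1 b2 b3 u * (a0+a1) + w1 l0 l1 y b0 b1 b2 b3 u * (a1+a2) +
    w2 l1 l2 x b0 b1 b2 b3 u * (a2+a3) + w3 l2 l3 y b0 b1 b2 b3 * (a3+(a0+t)) +
    a0 * u := by
  unfold qq w0 w1 w2 w3
  grind

end poly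

section
variable {K : Type} [Field K] {σ : K ≃+* K}

/-- `t(c) = c + σ⁴ c` -/
def tt (σ : K ≃+* K) (c : K) : K := c + σ (σ (σ (σ c)))

theorem tt_add (a b : K) : tt σ (a + b) = tt σ a + tt σ b := by
  unfold tt
  simp only [map_add]
  ring

variable [CharP K 2]

theorem s4 (c : K) : σ (σ (σ (σ c))) = c + tt σ c := by
  unfold tt
  grind

theorem QQ_eq (lam x c : K) : QQ σ lam x c = qq lam (σ lam) (σ (σ lam)) (σ (σ (σ lam))) x (σ x)
    c (σ c) (σ (σ c)) (σ (σ (σ c))) (tt σ c) := by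
  unfold QQ qf qq
  rw [s4 c]

theorem BB_eq (lam x a b : K) : BB σ lam x a b =
    w0 lam (σ (σ (σ lam))) x b (σ b) (σ (σ b)) (σ (σ (σ b))) (tt σ b) * (a + σ a) +
    w1 lam (σ lam) (σ x) b (σ b) (σ (σ b)) (σ (σ (σ b))) (tt σ b) * (σ a + σ (σ a)) +
    w2 (σ lam) (σ (σ lam)) x b (σ b) (σ (σ b)) (σ (σ (σ b))) (tt σ b) *
      (σ (σ a) + σ (σ (σ a))) +
    w3 (σ (σ lam)) (σ (σ (σ lam))) (σ x) b (σ b) (σ (σ b)) (σ (σ (σ b))) *
      (σ (σ (σ a)) + (a + tt σ a)) + a * tt σ b := by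
  unfold BB
  rw [QQ_eq, QQ_eq, QQ_eq]
  simp only [map_add, tt_add]
  exact qq_polar _ _ _ _ _ _ _ _ _ _ _ _ _ _ _ _

theorem tt_fix {f c : K} (hf : σ f = f) : tt σ (f * c) = f * tt σ c := by
  unfold tt
  simp only [map_mul, hf]
  ring

theorem QQ_smul {f lam x c : K} (hf : σ f = f) : QQ σ lam x (f * c) = f ^ 2 * QQ σ lam x c := by
  rw [QQ_eq, QQ_eq, tt_fix hf]
  simp only [map_mul, hf]
  unfold qq
  ring

theorem BB_smul {f lam x a b : K} (hf : σ f = f) :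
    BB σ lam x (f * a) b = f * BB σ lam x a b := by
  rw [BB_eq, BB_eq, tt_fix hf]
  simp only [map_mul, hf]
  ring

theorem BB_add (lam x a a' b : K) :
    BB σ lam x (a + a') b = BB σ lam x a b + BB σ lam x a' b := by
  rw [BB_eq, BB_eq, BB_eq, tt_add]
  simp only [map_add]
  ring

theorem fix_tt {d : K} (hd : σ d = d) : tt σ d = 0 := by
  unfold tt
  simp only [hd]
  grind

theorem QQ_fix {lam x d : K} (hd : σ d = d) : QQ σ lam x d = d ^ 2 := by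
  rw [QQ_eq, fix_tt hd]
  simp only [hd]
  unfold qq
  grind

end

section
variable {K : Type} [Field K] [Fintype K] [DecidableEq K] {σ : K ≃+* K}

theorem mem_VV {c : K} : c ∈ VV σ ↔ σ (tt σ c) = tt σ c := by
  simp [VV, tt]

theorem mem_XX {x : K} : x ∈ XX σ ↔ σ (σ x) = x + 1 := by
  simp [XX]

theorem VV_add {a b : K} (ha : a ∈ VV σ) (hb : b ∈ VV σ) : a + b ∈ VV σ := by
  rw [mem_VV] at *
  rw [tt_add, map_add, ha, hb]

variable [CharP K 2]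

theorem VV_smul {f a : K} (hf : σ f = f) (ha : a ∈ VV σ) : f * a ∈ VV σ := by
  rw [mem_VV] at *
  rw [tt_fix hf, map_mul, hf, ha]

theorem VV_fix {d : K} (hd : σ d = d) : d ∈ VV σ := by
  rw [mem_VV, fix_tt hd, map_zero]

theorem sigma_QQ {lam x c : K} (hlam : σ (σ (σ (σ lam))) = lam) (hx : x ∈ XX σ)
    (hc : c ∈ VV σ) : σ (QQ σ lam x c) = QQ σ lam x c := by
  rw [mem_XX] at hx
  rw [mem_VV] at hc
  have h4 := s4 (σ := σ) c
  rw [QQ_eq]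
  conv_rhs => rw [← qq_shift]
  unfold qq
  simp only [map_add, map_mul, map_one, hlam, hx, hc, h4]

theorem sigma_BB {lam x a b : K} (hlam : σ (σ (σ (σ lam))) = lam) (hx : x ∈ XX σ)
    (ha : a ∈ VV σ) (hb : b ∈ VV σ) : σ (BB σ lam x a b) = BB σ lam x a b := by
  unfold BB
  rw [map_add, map_add, sigma_QQ hlam hx (VV_add ha hb), sigma_QQ hlam hx ha,
    sigma_QQ hlam hx hb]

/-- a sign-changing translation kills the sum -/
theorem sum_neg (S : Finset K) (z : K) (g : K → ℤ) (hS : ∀ x ∈ S, x + z ∈ S)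
    (hg : ∀ x ∈ S, g (x + z) = -g x) : ∑ x ∈ S, g x = 0 := by
  have hzz : ∀ x : K, x + z + z = x := by
    intro x
    grind
  have h1 : ∑ x ∈ S, g x = ∑ x ∈ S, g (x + z) := by
    refine Finset.sum_nbij' (fun x => x + z) (fun x => x + z) hS hS ?_ ?_ ?_
    · intro x _
      exact hzz x
    · intro x _
      exact hzz x
    · intro x _
      rw [hzz x]
  have h2 : ∑ x ∈ S, g (x + z) = -∑ x ∈ S, g x := by
    rw [Finset.sum_congr rfl hg, Finset.sum_neg_distrib]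
  omega

theorem sum_shift (S : Finset K) (z : K) (g : K → ℤ) (hS : ∀ x ∈ S, x + z ∈ S) :
    ∑ x ∈ S, g (x + z) = ∑ x ∈ S, g x := by
  have hzz : ∀ x : K, x + z + z = x := by
    intro x
    grind
  refine Finset.sum_nbij' (fun x => x + z) (fun x => x + z) hS hS ?_ ?_ ?_
  · intro x _
    exact hzz x
  · intro x _
    exact hzz x
  · intro x _
    rfl

theorem chi_zero {χ : K → ℤ} (hS : Setup σ χ) : χ 0 = 1 := by
  rw [hS.one 0 (map_zero σ)]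
  exact ⟨0, map_zero σ, by ring⟩

end

end Pool.Agent.R883.MR
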